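import Pool.Agent.H99.KR.Defs

/-! The weighted chain lemma with dead colours and time `0`, inside a set `Y`
(Steps 1, 2, 3 of Theorem R; adapted from `H80/RR/Chn.lean`, `H80/RR/Gd.lean`). -/

namespace Pool.Agent.H36.KR

open Finset Classical Pool.Agent.H21.Poly Pool.Agent.H21.Tile Pool.Agent.H99.KR

section basic

variable {α : Type*} {k : ℕ} {w : α → ℝ}

lemma mu_nonneg (hw0 : ∀ x, 0 ≤ w x) (A : Finset α) : 0 ≤ mu w A := sum_nonneg fun x _ => hw0 x

lemma mu_mono (hw0 : ∀ x, 0 ≤ w x) {A B : Finset α} (h : A ⊆ B) : mu w A ≤ mu w B :=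
  sum_le_sum_of_subset_of_nonneg h fun x _ _ => hw0 x

lemma mu_filter_add (A : Finset α) (p : α → Prop) :
    mu w (A.filter p) + mu w (A.filter (fun x => ¬ p x)) = mu w A :=
  sum_filter_add_sum_filter_not A p w

/-- dead degree -/
noncomputable def dd (col : α → α → Fin k) (w : α → ℝ) (D0 : Finset (Fin k)) (S : Finset α)
    (z : α) : ℝ := mu w (S.filter (fun y => col z y ∈ D0))

/-- dead energy -/
noncomputable def de (col : α → α → Fin k) (w : α → ℝ) (D0 : Finset (Fin k)) (S : Finset α) : ℝ :=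
  ∑ x ∈ S, w x * dd col w D0 S x

lemma de_mono (hw0 : ∀ x, 0 ≤ w x) (col : α → α → Fin k) (D0 : Finset (Fin k)) {S S' : Finset α}
    (h : S ⊆ S') : de col w D0 S ≤ de col w D0 S' := by
  unfold de
  calc ∑ x ∈ S, w x * dd col w D0 S x ≤ ∑ x ∈ S, w x * dd col w D0 S' x := by
        apply sum_le_sum
        intro x _
        exact mul_le_mul_of_nonneg_left (mu_mono hw0 (filter_subset_filter _ h)) (hw0 x)
    _ ≤ ∑ x ∈ S', w x * dd col w D0 S' x :=
        sum_le_sum_of_subset_of_nonneg h fun x _ _ => mul_nonneg (hw0 x) (mu_nonneg hw0 _)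

/-- legal pivots of positive weight -/
noncomputable def lg (col : α → α → Fin k) (w : α → ℝ) (D0 : Finset (Fin k)) (S : Finset α) :
    Finset α := S.filter (fun z => 0 < w z ∧ dd col w D0 S z ≤ mu w S / 4)

lemma lg_mass (hw0 : ∀ x, 0 ≤ w x) (col : α → α → Fin k) (D0 : Finset (Fin k)) (S : Finset α)
    (hS : 0 < mu w S) (hde : 8 * de col w D0 S ≤ mu w S ^ 2) :
    mu w S / 2 ≤ mu w (lg col w D0 S) := by
  have h1 := mu_filter_add (w := w) S (fun z => dd col w D0 S z ≤ mu w S / 4)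
  have h2 : mu w (lg col w D0 S) = mu w (S.filter (fun z => dd col w D0 S z ≤ mu w S / 4)) := by
    unfold lg mu
    rw [sum_filter, sum_filter]
    apply sum_congr rfl
    intro x _
    by_cases hx : dd col w D0 S x ≤ (∑ x ∈ S, w x) / 4
    · by_cases hx0 : 0 < w x
      · rw [if_pos ⟨hx0, hx⟩, if_pos hx]
      · rw [if_neg (fun h => hx0 h.1), if_pos hx]
        exact le_antisymm (hw0 x) (not_lt.mp hx0)
    · rw [if_neg (fun h => hx h.2), if_neg hx]
  have h3 : mu w S / 4 * mu w (S.filter (fun z => ¬ dd col w D0 S z ≤ mu w S / 4)) ≤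
      de col w D0 S := by
    unfold de
    calc mu w S / 4 * mu w (S.filter (fun z => ¬ dd col w D0 S z ≤ mu w S / 4)) =
          ∑ x ∈ S.filter (fun z => ¬ dd col w D0 S z ≤ mu w S / 4), mu w S / 4 * w x := by
          unfold mu
          rw [mul_sum]
      _ ≤ ∑ x ∈ S.filter (fun z => ¬ dd col w D0 S z ≤ mu w S / 4), w x * dd col w D0 S x := by
          apply sum_le_sum
          intro x hx
          rw [mem_filter, not_le] at hx
          rw [mul_comm]
          exact mul_le_mul_of_nonneg_left hx.2.le (hw0 x)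
      _ ≤ _ := sum_le_sum_of_subset_of_nonneg (filter_subset _ _)
          fun x _ _ => mul_nonneg (hw0 x) (mu_nonneg hw0 _)
  rw [h2]
  by_contra hcon
  push Not at hcon
  have h4 : mu w S / 2 < mu w (S.filter (fun z => ¬ dd col w D0 S z ≤ mu w S / 4)) := by linarith
  have h5 : mu w S / 4 * (mu w S / 2) <
      mu w S / 4 * mu w (S.filter (fun z => ¬ dd col w D0 S z ≤ mu w S / 4)) :=
    mul_lt_mul_of_pos_left h4 (by linarith)
  have h6 : mu w S / 4 * (mu w S / 2) = mu w S ^ 2 / 8 := by ring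
  linarith

lemma maj (hw0 : ∀ x, 0 ≤ w x) (col : α → α → Fin k) (D0 : Finset (Fin k)) (S : Finset α)
    (hS : 0 < mu w S) (m : ℕ) (hm : 2 * k ≤ 2 ^ m) (z : α) (hz : dd col w D0 S z ≤ mu w S / 4) :
    ∃ c : Fin k, c ∉ D0 ∧ (1 / 2 : ℝ) ^ m * mu w S ≤ mu w (S.filter (fun y => col z y = c)) := by
  by_contra hcon
  push Not at hcon
  have h1 : mu w S = ∑ c : Fin k, mu w (S.filter (fun y => col z y = c)) := by
    unfold mu
    exact (sum_fiberwise_of_maps_to (fun _ _ => mem_univ _) w).symm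
  have h2 : ∑ c ∈ D0, mu w (S.filter (fun y => col z y = c)) = dd col w D0 S z := by
    unfold dd mu
    rw [← sum_fiberwise_of_maps_to (s := S.filter (fun y => col z y ∈ D0)) (t := D0)
      (g := fun y => col z y) (fun y hy => (mem_filter.mp hy).2)]
    apply sum_congr rfl
    intro c hc
    apply sum_congr _ fun _ _ => rfl
    ext y
    simp only [mem_filter]
    constructor
    · rintro ⟨h3, h4⟩
      exact ⟨⟨h3, by rw [h4]; exact hc⟩, h4⟩
    · rintro ⟨⟨h3, _⟩, h4⟩
      exact ⟨h3, h4⟩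
  have h3 : ∑ c ∈ univ \ D0, mu w (S.filter (fun y => col z y = c)) ≤ mu w S / 2 := by
    calc ∑ c ∈ univ \ D0, mu w (S.filter (fun y => col z y = c)) ≤
          ∑ c ∈ univ \ D0, (1 / 2 : ℝ) ^ m * mu w S := by
          apply sum_le_sum
          intro c hc
          exact (hcon c (mem_sdiff.mp hc).2).le
      _ = (univ \ D0 : Finset (Fin k)).card * ((1 / 2 : ℝ) ^ m * mu w S) := by
          rw [sum_const, nsmul_eq_mul]
      _ ≤ k * ((1 / 2 : ℝ) ^ m * mu w S) := by
          apply mul_le_mul_of_nonneg_right _ (by positivity)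
          have : (univ \ D0 : Finset (Fin k)).card ≤ k := by
            have := card_le_univ (univ \ D0 : Finset (Fin k))
            rwa [Fintype.card_fin] at this
          exact_mod_cast this
      _ ≤ mu w S / 2 := by
          have h4 : (2 * k : ℝ) ≤ 2 ^ m := by exact_mod_cast hm
          have h5 : (2:ℝ) ^ m * (1 / 2) ^ m = 1 := by rw [← mul_pow]; norm_num
          have h6 : (2 * k : ℝ) * (1 / 2) ^ m ≤ 2 ^ m * (1 / 2) ^ m :=
            mul_le_mul_of_nonneg_right h4 (by positivity)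
          rw [h5] at h6
          have h7 := mul_le_mul_of_nonneg_right h6 hS.le
          linarith
  have h4 : ∑ c : Fin k, mu w (S.filter (fun y => col z y = c)) =
      ∑ c ∈ univ \ D0, mu w (S.filter (fun y => col z y = c)) +
      ∑ c ∈ D0, mu w (S.filter (fun y => col z y = c)) :=
    (sum_sdiff (subset_univ D0)).symm
  rw [h4, h2] at h1
  linarith

end basic

section wt

variable {α : Type*} {k : ℕ} (col : α → α → Fin k) (w : α → ℝ)

/-- The weight of a test (a colour and a history) with respect to a chain. -/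
noncomputable def Wt (A : ℕ → Finset α) (cc : ℕ → Fin k) (L P : ℕ)
    (x : Fin k × Finset (ℕ × α)) : ℝ :=
  if (∀ p ∈ x.2, p.1 ≤ P → p.2 ∈ A p.1) then
    2 ^ (L * ((Icc 1 P).filter (fun i => cc i = x.1 ∧
      Bd col w x.1 A ((1 / 2) ^ L) i x.2)).card)
  else 0

/-- The set of candidates in `S` at time `P` is small. -/
def BdS (c : Fin k) (S : Finset α) (be : ℝ) (P : ℕ) (h : Finset (ℕ × α)) : Prop :=
  mu w (S.filter (fun y => ∀ p ∈ h, p.1 < P → col y p.2 = c)) < be * mu w S

/-- The factor of one step. -/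
noncomputable def EE (S : Finset α) (m : α → Fin k) (L P : ℕ) (z : α)
    (x : Fin k × Finset (ℕ × α)) : ℝ :=
  (if m z = x.1 ∧ BdS col w x.1 S ((1 / 2) ^ L) P x.2 then 2 ^ L else 1) *
    (if ∀ p ∈ x.2, p.1 < P → p.2 ∈ S.filter (fun y => col z y = m z) then 1 else 0)

variable {col w}

lemma EE_nonneg (S : Finset α) (m : α → Fin k) (L P : ℕ) (z : α) (x : Fin k × Finset (ℕ × α)) :
    0 ≤ EE col w S m L P z x := by
  unfold EE
  apply mul_nonneg
  · split_ifs <;> positivity
  · split_ifs <;> norm_num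

lemma Wt_nonneg (A : ℕ → Finset α) (cc : ℕ → Fin k) (L P : ℕ) (x : Fin k × Finset (ℕ × α)) :
    0 ≤ Wt col w A cc L P x := by
  unfold Wt
  split_ifs <;> positivity

lemma EE_sum (hw0 : ∀ x, 0 ≤ w x) (S S1 : Finset α) (hS1 : S1 ⊆ S) (m : α → Fin k) (L P : ℕ)
    (x : Fin k × Finset (ℕ × α)) :
    ∑ z ∈ S1, w z * EE col w S m L P z x ≤ 2 * mu w S := by
  have hnn : ∀ z, 0 ≤ w z * EE col w S m L P z x := fun z =>
    mul_nonneg (hw0 z) (EE_nonneg _ _ _ _ _ _)
  refine (sum_le_sum_of_subset_of_nonneg hS1 fun z _ _ => hnn z).trans ?_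
  by_cases hb : BdS col w x.1 S ((1 / 2) ^ L) P x.2
  · have h1 : ∀ z ∈ S, w z * EE col w S m L P z x ≤
        w z + 2 ^ L * (if (∀ p ∈ x.2, p.1 < P → col z p.2 = x.1) then w z else 0) := by
      intro z hz
      have h0 : (0:ℝ) ≤ 2 ^ L * (if (∀ p ∈ x.2, p.1 < P → col z p.2 = x.1) then w z else 0) := by
        have := hw0 z
        split_ifs <;> positivity
      unfold EE
      by_cases hm : m z = x.1
      · rw [if_pos ⟨hm, hb⟩]
        by_cases hv : ∀ p ∈ x.2, p.1 < P → p.2 ∈ S.filter (fun y => col z y = m z)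
        · rw [if_pos hv, if_pos (by
            intro p hp hpP
            have := (mem_filter.mp (hv p hp hpP)).2
            rw [this, hm])]
          have := hw0 z
          linarith
        · rw [if_neg hv, mul_zero, mul_zero]
          have := hw0 z
          linarith
      · rw [if_neg (fun h => hm h.1), one_mul]
        have h2 : (if (∀ p ∈ x.2, p.1 < P → p.2 ∈ S.filter (fun y => col z y = m z)) then (1:ℝ)
            else 0) ≤ 1 := by
          split_ifs <;> norm_num
        have h3 := mul_le_mul_of_nonneg_left h2 (hw0 z)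
        linarith
    refine (sum_le_sum h1).trans ?_
    rw [sum_add_distrib, ← mul_sum, ← sum_filter]
    have h3 : ∑ z ∈ S.filter (fun z => ∀ p ∈ x.2, p.1 < P → col z p.2 = x.1), w z <
      (1 / 2) ^ L * mu w S := hb
    have h4 : (2:ℝ) ^ L * ∑ z ∈ S.filter (fun z => ∀ p ∈ x.2, p.1 < P → col z p.2 = x.1), w z ≤
        mu w S := by
      have h5 : (2:ℝ) ^ L * ((1 / 2) ^ L * mu w S) = mu w S := by
        rw [← mul_assoc, ← mul_pow]; norm_num
      have h6 := mul_le_mul_of_nonneg_left h3.le (show (0:ℝ) ≤ 2 ^ L by positivity)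
      rwa [h5] at h6
    have h5 : ∑ z ∈ S, w z = mu w S := rfl
    rw [h5]
    have h6 : 2 ^ L * ∑ z ∈ S with ∀ p ∈ x.2, p.1 < P → col z p.2 = x.1, w z ≤ mu w S := h4
    linarith
  · have h1 : ∀ z ∈ S, w z * EE col w S m L P z x ≤ w z := by
      intro z hz
      unfold EE
      rw [if_neg (fun h => hb h.2), one_mul]
      have h2 : (if (∀ p ∈ x.2, p.1 < P → p.2 ∈ S.filter (fun y => col z y = m z)) then (1:ℝ)
            else 0) ≤ 1 := by
        split_ifs <;> norm_num
      have h3 := mul_le_mul_of_nonneg_left h2 (hw0 z)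
      linarith
    refine (sum_le_sum h1).trans ?_
    have h5 : ∑ z ∈ S, w z = mu w S := rfl
    rw [h5]
    have := mu_nonneg hw0 S
    linarith

lemma Wt_succ (S : Finset α) (m : α → Fin k) (L P : ℕ) (z : α) (A' A : ℕ → Finset α)
    (c' c : ℕ → Fin k) (hA : ∀ i, i ≤ P → A i = A' i) (hAP : A (P + 1) = S)
    (hc : ∀ i, i ≤ P → c i = c' i) (hcP : c (P + 1) = m z)
    (hsub : ∀ i, i ≤ P → A' i ⊆ S.filter (fun y => col z y = m z))
    (x : Fin k × Finset (ℕ × α)) :
    Wt col w A c L (P + 1) x ≤ EE col w S m L (P + 1) z x * Wt col w A' c' L P x := by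
  by_cases hv : ∀ p ∈ x.2, p.1 ≤ P + 1 → p.2 ∈ A p.1
  · have hv' : ∀ p ∈ x.2, p.1 ≤ P → p.2 ∈ A' p.1 := by
      intro p hp hpP
      rw [← hA p.1 hpP]
      exact hv p hp (by omega)
    have hv2 : ∀ p ∈ x.2, p.1 < P + 1 → p.2 ∈ S.filter (fun y => col z y = m z) :=
      fun p hp hpP => hsub _ (by omega) (hv' p hp (by omega))
    have e : (Icc 1 P).filter (fun i => c i = x.1 ∧
        Bd col w x.1 A ((1 / 2) ^ L) i x.2) = (Icc 1 P).filter (fun i => c' i = x.1 ∧
        Bd col w x.1 A' ((1 / 2) ^ L) i x.2) := by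
      apply filter_congr
      intro i hi
      rw [mem_Icc] at hi
      unfold Bd Cd
      rw [hA i hi.2, hc i hi.2]
    have hP : Bd col w x.1 A ((1 / 2) ^ L) (P + 1) x.2 ↔
        BdS col w x.1 S ((1 / 2) ^ L) (P + 1) x.2 := by
      unfold Bd BdS Cd
      rw [hAP]
    have hI : Icc 1 (P + 1) = insert (P + 1) (Icc 1 P) := by
      ext i; simp only [mem_Icc, mem_insert]; omega
    unfold Wt EE
    rw [if_pos hv, if_pos hv', if_pos hv2, hI, filter_insert, e, hcP, hP]
    by_cases hm : m z = x.1 ∧ BdS col w x.1 S ((1 / 2) ^ L) (P + 1) x.2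
    · rw [if_pos hm, if_pos hm, card_insert_of_notMem (by simp), mul_add, pow_add, mul_one]
      apply le_of_eq
      ring
    · rw [if_neg hm, if_neg hm]
      apply le_of_eq
      ring
  · have : Wt col w A c L (P + 1) x = 0 := by
      unfold Wt
      rw [if_neg hv]
    rw [this]
    exact mul_nonneg (EE_nonneg _ _ _ _ _ _) (Wt_nonneg _ _ _ _ _)

/-- A chain of neighbourhoods such that the average weight is small. -/
theorem chain (hw0 : ∀ x, 0 ≤ w x) (D0 : Finset (Fin k)) (hD0 : (univ \ D0).Nonempty) (L n : ℕ)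
    (hn : 2 * k ≤ 2 ^ n) (P : ℕ) :
    ∀ S : Finset α, 0 < mu w S → 8 * de col w D0 S ≤ ((1 / 2 : ℝ) ^ (n * P) * mu w S) ^ 2 →
    ∀ Φ : ((Fin k × Finset (ℕ × α)) → ℝ) →ₗ[ℝ] ℝ,
    (∀ f g, (∀ x, f x ≤ g x) → Φ f ≤ Φ g) →
    ∃ (A : ℕ → Finset α) (c : ℕ → Fin k), (∀ i, c i ∉ D0) ∧ (∀ i, A i ⊆ S) ∧
      (∀ i j, i ≤ j → A i ⊆ A j) ∧ (∀ i, (1 / 2 : ℝ) ^ (n * P) * mu w S ≤ mu w (A i)) ∧
      Φ (Wt col w A c L P) ≤ 4 ^ P * Φ (fun _ => 1) := by
  induction P with
  | zero =>
    intro S hS _ Φ hΦ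
    obtain ⟨c0, hc0⟩ := hD0
    refine ⟨fun _ => S, fun _ => c0, fun _ => (mem_sdiff.mp hc0).2, fun _ => subset_rfl,
      fun _ _ _ => subset_rfl, fun _ => by simp, ?_⟩
    rw [pow_zero, one_mul]
    apply hΦ
    intro x
    unfold Wt
    split_ifs
    · simp
    · norm_num
  | succ P ih =>
    intro S hS hde Φ hΦ
    have hΦ0 : 0 ≤ Φ (fun _ => 1) := by
      have h1 := hΦ (fun _ => 0) (fun _ => 1) (fun _ => zero_le_one)
      have h2 : Φ (fun _ => (0:ℝ)) = 0 := Φ.map_zero
      rwa [h2] at h1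
    have hpow1 : (1 / 2 : ℝ) ^ (n * (P + 1)) ≤ 1 := pow_le_one₀ (by norm_num) (by norm_num)
    have hde2 : 8 * de col w D0 S ≤ mu w S ^ 2 := by
      refine hde.trans ?_
      rw [mul_pow]
      have h1 : ((1 / 2 : ℝ) ^ (n * (P + 1))) ^ 2 ≤ 1 := pow_le_one₀ (by positivity) hpow1
      have h2 := mul_le_mul_of_nonneg_right h1 (sq_nonneg (mu w S))
      linarith
    have hlg := lg_mass hw0 col D0 S hS hde2
    have hmaj : ∀ z, ∃ c : Fin k, z ∈ lg col w D0 S → c ∉ D0 ∧
        (1 / 2 : ℝ) ^ n * mu w S ≤ mu w (S.filter (fun y => col z y = c)) := by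
      intro z
      by_cases hz : z ∈ lg col w D0 S
      · obtain ⟨c, hc1, hc2⟩ := maj hw0 col D0 S hS n hn z (mem_filter.mp hz).2.2
        exact ⟨c, fun _ => ⟨hc1, hc2⟩⟩
      · obtain ⟨c, _⟩ := hD0
        exact ⟨c, fun h => absurd h hz⟩
    choose m hm using hmaj
    have hlne : (lg col w D0 S).Nonempty := by
      rw [nonempty_iff_ne_empty]
      intro h
      rw [h] at hlg
      have : mu w ∅ = 0 := rfl
      linarith
    have havg : ∃ z ∈ lg col w D0 S, w z * Φ (EE col w S m L (P + 1) z) ≤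
        w z * (4 * Φ (fun _ => 1)) := by
      apply exists_le_of_sum_le hlne
      rw [← sum_mul]
      have h0 : ∀ z, w z * Φ (EE col w S m L (P + 1) z) =
          Φ (w z • EE col w S m L (P + 1) z) := by
        intro z
        rw [map_smul, smul_eq_mul]
      simp_rw [h0]
      rw [← map_sum]
      have h1 : Φ ((2 * mu w S : ℝ) • (fun _ : Fin k × Finset (ℕ × α) => (1:ℝ))) =
          2 * mu w S * Φ (fun _ => 1) := by
        rw [map_smul, smul_eq_mul]
      have h2 : Φ (∑ z ∈ lg col w D0 S, w z • EE col w S m L (P + 1) z) ≤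
          Φ ((2 * mu w S : ℝ) • (fun _ : Fin k × Finset (ℕ × α) => (1:ℝ))) := by
        apply hΦ
        intro x
        rw [Finset.sum_apply, Pi.smul_apply, smul_eq_mul, mul_one]
        simp only [Pi.smul_apply, smul_eq_mul]
        exact EE_sum hw0 S _ (filter_subset _ _) m L (P + 1) x
      rw [h1] at h2
      have h3 : ∑ z ∈ lg col w D0 S, w z = mu w (lg col w D0 S) := rfl
      rw [h3]
      have h4 := mul_le_mul_of_nonneg_right hlg (show 0 ≤ 4 * Φ (fun _ => 1) by linarith)
      have h5 : mu w S / 2 * (4 * Φ (fun _ => 1)) = 2 * mu w S * Φ (fun _ => 1) := by ring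
      linarith
    obtain ⟨z, hz, hzΦ'⟩ := havg
    have hzw : 0 < w z := (mem_filter.mp hz).2.1
    have hzΦ : Φ (EE col w S m L (P + 1) z) ≤ 4 * Φ (fun _ => 1) := le_of_mul_le_mul_left hzΦ' hzw
    obtain ⟨hmz, hmz2⟩ := hm z hz
    obtain ⟨S', hS'⟩ : ∃ S', S' = S.filter (fun y => col z y = m z) := ⟨_, rfl⟩
    rw [← hS'] at hmz2
    have hS'0 : 0 < mu w S' := lt_of_lt_of_le (by positivity) hmz2
    have hS'S : S' ⊆ S := by rw [hS']; exact filter_subset _ _
    have hfl : (1 / 2 : ℝ) ^ (n * (P + 1)) * mu w S ≤ (1 / 2 : ℝ) ^ (n * P) * mu w S' := by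
      calc (1 / 2 : ℝ) ^ (n * (P + 1)) * mu w S = (1 / 2) ^ (n * P) * ((1 / 2) ^ n * mu w S) := by
            rw [← mul_assoc, ← pow_add]; ring_nf
        _ ≤ _ := mul_le_mul_of_nonneg_left hmz2 (by positivity)
    obtain ⟨A', c', g0, g1, g2, g3, g4⟩ := ih S' hS'0 (by
        have h1 := de_mono hw0 col D0 hS'S
        have h2 : ((1 / 2 : ℝ) ^ (n * (P + 1)) * mu w S) ^ 2 ≤
            ((1 / 2 : ℝ) ^ (n * P) * mu w S') ^ 2 :=
          pow_le_pow_left₀ (by positivity) hfl 2
        linarith)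
      (Φ.comp (LinearMap.mulLeft ℝ (EE col w S m L (P + 1) z))) (by
        intro f g hfg
        rw [LinearMap.comp_apply, LinearMap.comp_apply, LinearMap.mulLeft_apply,
          LinearMap.mulLeft_apply]
        apply hΦ
        intro x
        rw [Pi.mul_apply, Pi.mul_apply]
        exact mul_le_mul_of_nonneg_left (hfg x) (EE_nonneg _ _ _ _ _ _))
    rw [LinearMap.comp_apply, LinearMap.comp_apply, LinearMap.mulLeft_apply,
      LinearMap.mulLeft_apply] at g4
    have hE1 : EE col w S m L (P + 1) z * (fun _ => (1:ℝ)) = EE col w S m L (P + 1) z := by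
      ext x
      rw [Pi.mul_apply, mul_one]
    rw [hE1] at g4
    refine ⟨fun i => if i ≤ P then A' i else S, fun i => if i ≤ P then c' i else m z,
      ?_, ?_, ?_, ?_, ?_⟩
    · intro i
      beta_reduce
      split_ifs with h
      · exact g0 i
      · exact hmz
    · intro i
      beta_reduce
      split_ifs with h
      · exact (g1 i).trans hS'S
      · exact subset_rfl
    · intro i j hij
      beta_reduce
      by_cases hjP : j ≤ P
      · rw [if_pos hjP, if_pos (by omega : i ≤ P)]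
        exact g2 i j hij
      · rw [if_neg hjP]
        split_ifs with h
        · exact (g1 i).trans hS'S
        · exact subset_rfl
    · intro i
      beta_reduce
      split_ifs with h
      · exact hfl.trans (g3 i)
      · have := mul_le_mul_of_nonneg_right hpow1 hS.le
        linarith
    · have h5 : Φ (Wt col w (fun i => if i ≤ P then A' i else S)
          (fun i => if i ≤ P then c' i else m z) L (P + 1)) ≤
          Φ (EE col w S m L (P + 1) z * Wt col w A' c' L P) := by
        apply hΦ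
        intro x
        rw [Pi.mul_apply]
        apply Wt_succ
        · intro i hi
          exact if_pos hi
        · exact if_neg (by omega)
        · intro i hi
          exact if_pos hi
        · exact if_neg (by omega)
        · intro i hi
          rw [← hS']
          exact g1 i
      refine h5.trans (g4.trans ?_)
      rw [pow_succ, mul_assoc]
      exact mul_le_mul_of_nonneg_left hzΦ (by positivity)

end wt

section good

variable {α : Type*} {k : ℕ} {col : α → α → Fin k} {w : α → ℝ}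

/-- Weighted sums over the extensions of a history by at most `s` pairs. -/
noncomputable def KK (w : α → ℝ) (q : ℝ) (P : ℕ) (S : Finset α) :
    ℕ → (Finset (ℕ × α) → ℝ) → Finset (ℕ × α) → ℝ
  | 0, f, h => f h
  | s + 1, f, h => KK w q P S s f h +
      q * ∑ t ∈ range (P + 1), ∑ x ∈ S, w x * KK w q P S s f (insert (t, x) h)

lemma KK_mono (hw0 : ∀ x, 0 ≤ w x) {q : ℝ} (hq : 0 ≤ q) (P : ℕ) (S : Finset α) (s : ℕ)
    (f g : Finset (ℕ × α) → ℝ) (hfg : ∀ h, f h ≤ g h) :
    ∀ h, KK w q P S s f h ≤ KK w q P S s g h := by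
  induction s with
  | zero => exact hfg
  | succ s ih =>
    intro h
    unfold KK
    have h1 : ∑ t ∈ range (P + 1), ∑ x ∈ S, w x * KK w q P S s f (insert (t, x) h) ≤
        ∑ t ∈ range (P + 1), ∑ x ∈ S, w x * KK w q P S s g (insert (t, x) h) :=
      sum_le_sum (fun t _ => sum_le_sum (fun x _ => mul_le_mul_of_nonneg_left (ih _) (hw0 x)))
    have h2 := mul_le_mul_of_nonneg_left h1 hq
    have h3 := ih h
    linarith

lemma KK_add (q : ℝ) (P : ℕ) (S : Finset α) (s : ℕ)
    (f g : Finset (ℕ × α) → ℝ) : ∀ h, KK w q P S s (fun x => f x + g x) h =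
      KK w q P S s f h + KK w q P S s g h := by
  induction s with
  | zero => intro h; rfl
  | succ s ih =>
    intro h
    unfold KK
    rw [ih h]
    have h1 : ∑ t ∈ range (P + 1), ∑ x ∈ S, w x * KK w q P S s (fun x => f x + g x)
          (insert (t, x) h) =
        ∑ t ∈ range (P + 1), ∑ x ∈ S, w x * KK w q P S s f (insert (t, x) h) +
        ∑ t ∈ range (P + 1), ∑ x ∈ S, w x * KK w q P S s g (insert (t, x) h) := by
      rw [← sum_add_distrib]
      apply sum_congr rfl
      intro t _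
      rw [← sum_add_distrib]
      apply sum_congr rfl
      intro x _
      rw [ih]
      ring
    rw [h1]
    ring

lemma KK_smul (q : ℝ) (P : ℕ) (S : Finset α) (s : ℕ) (a : ℝ)
    (f : Finset (ℕ × α) → ℝ) : ∀ h, KK w q P S s (fun x => a * f x) h = a * KK w q P S s f h := by
  induction s with
  | zero => intro h; rfl
  | succ s ih =>
    intro h
    unfold KK
    rw [ih h]
    have h1 : ∑ t ∈ range (P + 1), ∑ x ∈ S, w x * KK w q P S s (fun x => a * f x)
          (insert (t, x) h) =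
        a * ∑ t ∈ range (P + 1), ∑ x ∈ S, w x * KK w q P S s f (insert (t, x) h) := by
      rw [mul_sum]
      apply sum_congr rfl
      intro t _
      rw [mul_sum]
      apply sum_congr rfl
      intro x _
      rw [ih]
      ring
    rw [h1]
    ring

lemma KK_one (q : ℝ) (P : ℕ) (S : Finset α) (s : ℕ) :
    ∀ h, KK w q P S s (fun _ => 1) h = (1 + q * ((P + 1) * mu w S)) ^ s := by
  induction s with
  | zero => intro h; rw [pow_zero]; rfl
  | succ s ih =>
    intro h
    unfold KK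
    rw [ih h]
    have h1 : ∑ t ∈ range (P + 1), ∑ x ∈ S, w x * KK w q P S s (fun _ => 1) (insert (t, x) h) =
        (P + 1) * (mu w S * (1 + q * ((P + 1) * mu w S)) ^ s) := by
      have h2 : ∀ t ∈ range (P + 1), ∑ x ∈ S, w x * KK w q P S s (fun _ => 1) (insert (t, x) h) =
          mu w S * (1 + q * ((P + 1) * mu w S)) ^ s := by
        intro t _
        rw [sum_congr rfl (fun x _ => by rw [ih (insert (t, x) h)]), ← sum_mul]
        rfl
      rw [sum_congr rfl h2, sum_const, nsmul_eq_mul, card_range]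
      push_cast
      ring
    rw [h1, pow_succ]
    ring

lemma KK_nonneg (hw0 : ∀ x, 0 ≤ w x) {q : ℝ} (hq : 0 ≤ q) (P : ℕ) (S : Finset α) (s : ℕ)
    (f : Finset (ℕ × α) → ℝ) (hf : ∀ h, 0 ≤ f h) : ∀ h, 0 ≤ KK w q P S s f h := by
  induction s with
  | zero => exact hf
  | succ s ih =>
    intro h
    unfold KK
    have h1 : 0 ≤ ∑ t ∈ range (P + 1), ∑ x ∈ S, w x * KK w q P S s f (insert (t, x) h) :=
      sum_nonneg (fun t _ => sum_nonneg (fun x _ => mul_nonneg (hw0 x) (ih _)))
    exact add_nonneg (ih h) (mul_nonneg hq h1)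

lemma notGood (hw0 : ∀ x, 0 ≤ w x) (c : Fin k) (A : ℕ → Finset α) (be rho : ℝ) (b : ℕ)
    (T : Finset ℕ) (P : ℕ) (hT : T ⊆ Icc 1 P) (S : Finset α) (hA : ∀ i, A i ⊆ S)
    {q : ℝ} (hq0 : 0 ≤ q) (hq : ∀ i, 1 ≤ q * (rho * mu w (A i)))
    (f : Finset (ℕ × α) → ℝ) (hf0 : ∀ h, 0 ≤ f h) (M : ℝ) (hM : 0 ≤ M)
    (hf : ∀ h : Finset (ℕ × α), (∀ p ∈ h, p.1 ≤ P → p.2 ∈ A p.1) →
      ¬ Good col w c A be rho T b 0 h → M ≤ f h) (s : ℕ) :
    ∀ h : Finset (ℕ × α), (∀ p ∈ h, p.1 ≤ P → p.2 ∈ A p.1) →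
      ¬ Good col w c A be rho T b s h → M ≤ KK w q P S s f h := by
  induction s with
  | zero => exact hf
  | succ s ih =>
    intro h hv hng
    have hnn : 0 ≤ q * ∑ t ∈ range (P + 1), ∑ x ∈ S, w x * KK w q P S s f (insert (t, x) h) :=
      mul_nonneg hq0 (sum_nonneg (fun t _ => sum_nonneg (fun x _ =>
        mul_nonneg (hw0 x) (KK_nonneg hw0 hq0 _ _ _ _ hf0 _))))
    have hnn2 := KK_nonneg hw0 hq0 P S s f hf0 h
    unfold KK
    by_cases hg : Good col w c A be rho T b s h
    · have h1 : ∃ i ∈ insert 0 T, rho * mu w (A i) <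
          mu w ((A i).filter (fun x => ¬ Good col w c A be rho T b s (insert (i, x) h))) := by
        by_contra hcon
        push Not at hcon
        exact hng ⟨hg, hcon⟩
      obtain ⟨i, hi, hi2⟩ := h1
      have hiP : i ∈ range (P + 1) := by
        rw [mem_insert] at hi
        rw [mem_range]
        rcases hi with hi | hi
        · omega
        · have := mem_Icc.mp (hT hi)
          omega
      have h2 : ∑ x ∈ (A i).filter (fun x => ¬ Good col w c A be rho T b s (insert (i, x) h)),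
            w x * M ≤ ∑ x ∈ S, w x * KK w q P S s f (insert (i, x) h) := by
        calc ∑ x ∈ (A i).filter (fun x => ¬ Good col w c A be rho T b s (insert (i, x) h)),
              w x * M ≤
            ∑ x ∈ (A i).filter (fun x => ¬ Good col w c A be rho T b s (insert (i, x) h)),
              w x * KK w q P S s f (insert (i, x) h) := by
              apply sum_le_sum
              intro x hx
              rw [mem_filter] at hx
              apply mul_le_mul_of_nonneg_left _ (hw0 x)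
              apply ih _ _ hx.2
              intro p hp hpP
              rw [mem_insert] at hp
              rcases hp with hp | hp
              · rw [hp]; exact hx.1
              · exact hv p hp hpP
          _ ≤ ∑ x ∈ S, w x * KK w q P S s f (insert (i, x) h) := by
              apply sum_le_sum_of_subset_of_nonneg
              · exact (filter_subset _ _).trans (hA i)
              · intro x _ _
                exact mul_nonneg (hw0 x) (KK_nonneg hw0 hq0 _ _ _ _ hf0 _)
      have h3 : ∑ x ∈ S, w x * KK w q P S s f (insert (i, x) h) ≤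
          ∑ t ∈ range (P + 1), ∑ x ∈ S, w x * KK w q P S s f (insert (t, x) h) :=
        single_le_sum (f := fun t => ∑ x ∈ S, w x * KK w q P S s f (insert (t, x) h))
          (fun t _ => sum_nonneg (fun x _ =>
            mul_nonneg (hw0 x) (KK_nonneg hw0 hq0 _ _ _ _ hf0 _))) hiP
      rw [← sum_mul] at h2
      have h4 : rho * mu w (A i) * M ≤
          ∑ t ∈ range (P + 1), ∑ x ∈ S, w x * KK w q P S s f (insert (t, x) h) :=
        (mul_le_mul_of_nonneg_right hi2.le hM).trans (h2.trans h3)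
      have h5 := mul_le_mul_of_nonneg_left h4 hq0
      have h6 := mul_le_mul_of_nonneg_right (hq i) hM
      have h7 : q * (rho * mu w (A i) * M) = q * (rho * mu w (A i)) * M := by ring
      linarith
    · have := ih h hv hg
      linarith

/-- THE WEIGHTED CHAIN LEMMA inside the set `Y`. -/
theorem chain_in (col : α → α → Fin k) (D0 : Finset (Fin k)) (hD0 : (univ \ D0).Nonempty)
    (w : α → ℝ) (hw0 : ∀ x, 0 ≤ w x) (Y : Finset α) (hY : 0 < mu w Y) (Δ m P b L a : ℕ)
    (hm : 2 * k ≤ 2 ^ m)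
    (hcond : (4:ℝ) ^ P * k * (1 + (P + 1) * 2 ^ a * 2 ^ (m * P)) ^ Δ < 2 ^ (L * b))
    (hdead : 8 * ∑ x ∈ Y, w x * mu w (Y.filter (fun y => col x y ∈ D0)) ≤
      ((1 / 2 : ℝ) ^ (m * P) * mu w Y) ^ 2) :
    ∃ (A : ℕ → Finset α) (cc : ℕ → Fin k),
      (∀ i, cc i ∉ D0) ∧ (∀ i j, i ≤ j → A i ⊆ A j) ∧ (∀ i, A i ⊆ Y) ∧
      (∀ i, (1 / 2 : ℝ) ^ (m * P) * mu w Y ≤ mu w (A i)) ∧
      ∀ c, Good col w c A ((1 / 2) ^ L) ((1 / 2) ^ a) ((Icc 1 P).filter (fun i => cc i = c)) b Δ
        ∅ := by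
  obtain ⟨q, hq⟩ : ∃ q : ℝ, q = 2 ^ a * 2 ^ (m * P) / mu w Y := ⟨_, rfl⟩
  have hq0 : 0 ≤ q := by rw [hq]; positivity
  let Φ : ((Fin k × Finset (ℕ × α)) → ℝ) →ₗ[ℝ] ℝ :=
    { toFun := fun E => ∑ c0 : Fin k, KK w q P Y Δ (fun h => E (c0, h)) ∅
      map_add' := by
        intro f g
        rw [← sum_add_distrib]
        apply sum_congr rfl
        intro c0 _
        exact KK_add q P Y Δ (fun h => f (c0, h)) (fun h => g (c0, h)) ∅
      map_smul' := by
        intro a f
        rw [RingHom.id_apply, smul_eq_mul, mul_sum]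
        apply sum_congr rfl
        intro c0 _
        exact KK_smul q P Y Δ a (fun h => f (c0, h)) ∅ }
  have hΦ : ∀ E, Φ E = ∑ c0 : Fin k, KK w q P Y Δ (fun h => E (c0, h)) ∅ := fun _ => rfl
  obtain ⟨A, c, h0, h1, h2, h3, h4⟩ := chain (col := col) hw0 D0 hD0 L m hm P Y hY hdead Φ (by
    intro f g hfg
    rw [hΦ, hΦ]
    apply sum_le_sum
    intro c0 _
    exact KK_mono hw0 hq0 P Y Δ _ _ (fun h => hfg (c0, h)) ∅)
  refine ⟨A, c, h0, h2, h1, h3, ?_⟩
  intro c0
  by_contra hng
  rw [hΦ, hΦ] at h4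
  have h5 : ∑ c1 : Fin k, KK w q P Y Δ (fun _ => (1:ℝ)) ∅ =
      k * (1 + (P + 1) * 2 ^ a * 2 ^ (m * P)) ^ Δ := by
    rw [sum_const, nsmul_eq_mul, card_univ, Fintype.card_fin, KK_one]
    congr 2
    rw [hq]
    field_simp
  have h22 : (1 / 2 : ℝ) ^ a * 2 ^ a = 1 := by rw [← mul_pow]; norm_num
  have h23 : (1 / 2 : ℝ) ^ (m * P) * 2 ^ (m * P) = 1 := by rw [← mul_pow]; norm_num
  have h6 : (2:ℝ) ^ (L * b) ≤ KK w q P Y Δ (fun h => Wt col w A c L P (c0, h)) ∅ := by
    apply notGood hw0 c0 A ((1 / 2) ^ L) ((1 / 2) ^ a) b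
      ((Icc 1 P).filter (fun i => c i = c0)) P (filter_subset _ _) Y h1 hq0 ?_
      (fun h => Wt col w A c L P (c0, h)) (fun h => Wt_nonneg _ _ _ _ _) _ (by positivity) ?_ Δ ∅
      (by simp) hng
    · intro i
      have h7 := h3 i
      rw [hq, div_mul_eq_mul_div, le_div_iff₀ hY, one_mul]
      have h8 := mul_le_mul_of_nonneg_left h7 (show (0:ℝ) ≤ 2 ^ (m * P) by positivity)
      calc mu w Y = 2 ^ (m * P) * ((1 / 2) ^ (m * P) * mu w Y) := by
            rw [← mul_assoc, mul_comm ((2:ℝ) ^ (m * P)), h23, one_mul]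
        _ ≤ 2 ^ (m * P) * mu w (A i) := h8
        _ = ((1 / 2) ^ a * 2 ^ a) * (2 ^ (m * P) * mu w (A i)) := by rw [h22, one_mul]
        _ = 2 ^ a * 2 ^ (m * P) * ((1 / 2) ^ a * mu w (A i)) := by ring
    · intro h hv hb
      have h9 : b ≤ (((Icc 1 P).filter (fun i => c i = c0)).filter
          (fun i => Bd col w c0 A ((1 / 2) ^ L) i h)).card := by
        by_contra hcon
        push Not at hcon
        exact hb hcon
      unfold Wt
      rw [if_pos hv]
      apply pow_le_pow_right₀ (by norm_num)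
      apply Nat.mul_le_mul_left
      rw [filter_filter] at h9
      exact h9
  have h7 : KK w q P Y Δ (fun h => Wt col w A c L P (c0, h)) ∅ ≤
      ∑ c1 : Fin k, KK w q P Y Δ (fun h => Wt col w A c L P (c1, h)) ∅ :=
    single_le_sum (f := fun c1 => KK w q P Y Δ (fun h => Wt col w A c L P (c1, h)) ∅)
      (fun c1 _ => KK_nonneg hw0 hq0 _ _ _ _ (fun h => Wt_nonneg _ _ _ _ _) _) (mem_univ c0)
  rw [h5] at h4
  linarith

end good

end Pool.Agent.H36.KR
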